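import Pool.Agent.W654.SG.Main

/-!
It is consistent with ZFC that there is a countably compact sequential topological group which is
not Fréchet–Urysohn.

(1) Some notion of forcing preserves `ω₁` and forces Jensen's principle diamond.
(2) Diamond implies that there are two countably compact Fréchet–Urysohn Hausdorff topological
groups `G` and `H` such that the group `G × H`, which is countably compact and sequential, is not
Fréchet–Urysohn.
-/

namespace Pool.Agent.Results.MP_1ab623_gt.ConsistentExample

open Pool.Agent.W654.SG (CountablyCompact Diamond)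
open Pool.Agent.Helper292.ForceCH (OmegaOnePreserved DiamondHolds)

theorem result :
    (∃ (P : Type) (_ : Preorder P), Nonempty P ∧ ∀ p : P,
      p ∈ OmegaOnePreserved P ∧ p ∈ DiamondHolds P) ∧
    (Diamond → ∃ (G : Type) (_ : AddCommGroup G) (_ : TopologicalSpace G)
      (H : Type) (_ : AddCommGroup H) (_ : TopologicalSpace H),
      (IsTopologicalAddGroup G ∧ T2Space G ∧ CountablyCompact G ∧ FrechetUrysohnSpace G) ∧
      (IsTopologicalAddGroup H ∧ T2Space H ∧ CountablyCompact H ∧ FrechetUrysohnSpace H) ∧
      IsTopologicalAddGroup (G × H) ∧ T2Space (G × H) ∧ CountablyCompact (G × H) ∧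
        SequentialSpace (G × H) ∧ ¬ FrechetUrysohnSpace (G × H)) := by
  refine ⟨?_, fun hd => ?_⟩
  · obtain ⟨P, hP, hne, h⟩ := Pool.Agent.Helper292.ForceCH.exists_forcing
    exact ⟨P, hP, hne, fun p => ⟨(h p).1, (h p).2.1⟩⟩
  · obtain ⟨G, H, h1, h2, h3, h4, h5⟩ := Pool.Agent.W654.SG.exists_groups hd
    refine ⟨G, inferInstance, inferInstance, H, inferInstance, inferInstance,
      ⟨inferInstance, inferInstance, ?_, h1⟩, ⟨inferInstance, inferInstance, ?_, h3⟩,
      inferInstance, inferInstance, ?_, ?_, h5⟩
    · exact Pool.Agent.W654.SG.countablyCompact_of_seqCompact _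
    · exact Pool.Agent.W654.SG.countablyCompact_of_seqCompact _
    · exact Pool.Agent.W654.SG.countablyCompact_of_seqCompact _
    · exact Pool.Agent.W654.SG.sequential_prod _ _

end Pool.Agent.Results.MP_1ab623_gt.ConsistentExample
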